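import Pool.Agent.Helper57.SJ.Stmts2

/-!
# The combination, for all directions (row CMK; adapted from `Helper81/SI/CM.lean` and
`Helper19/SJ/CMT.lean`)
-/

set_option autoImplicit false

namespace Pool.Agent.Helper12.SJ

open MeasureTheory Set Filter Topology
open Pool.Agent.Helper57.QZ (Pr tor circ aa Zy Wy Sy Vy Ky pt lin Good zA Pz)
open Pool.Agent.Helper57.SI (wsup P1 P2 fej fc gc Kk zz ZZ ww D1 D2 tl)
open Pool.Agent.Helper57.SJ

theorem cmk_re (θ : ℝ) (W : ℂ) : |(Complex.exp (-((θ : ℂ) * Complex.I)) * W).re| ≤ ‖W‖ := by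
  refine (Complex.abs_re_le_norm _).trans ?_
  rw [norm_mul, Complex.norm_exp]
  simp

theorem cmk_log (a b η : ℝ) (ha : 0 < a) (hb : 0 < b) (hη : 0 ≤ η) (hη1 : η ≤ 1 / 100)
    (h : |Real.log a - Real.log b| ≤ η) : (1 - η) * b ≤ a ∧ a ≤ (1 + 2 * η) * b := by
  obtain ⟨h1, h2⟩ := abs_le.1 h
  constructor
  · have h3 : Real.log b - η ≤ Real.log a := by linarith
    have h4 := Real.exp_le_exp.2 h3
    rw [Real.exp_log ha, Real.exp_sub, Real.exp_log hb] at h4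
    refine le_trans ?_ h4
    rw [le_div_iff₀ (Real.exp_pos η)]
    have h5 : (1 - η) * Real.exp η ≤ 1 := by
      have h6 := Real.add_one_le_exp (-η)
      have h7 : Real.exp (-η) * Real.exp η = 1 := by rw [← Real.exp_add]; simp
      have h8 : 0 < Real.exp η := Real.exp_pos η
      nlinarith
    calc (1 - η) * b * Real.exp η = ((1 - η) * Real.exp η) * b := by ring
      _ ≤ 1 * b := mul_le_mul_of_nonneg_right h5 hb.le
      _ = b := one_mul b
  · have h3 : Real.log a ≤ Real.log b + η := by linarith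
    have h4 := Real.exp_le_exp.2 h3
    rw [Real.exp_log ha, Real.exp_add, Real.exp_log hb] at h4
    have b3 := Real.abs_exp_sub_one_sub_id_le (x := η)
      (by rw [abs_of_nonneg hη]; linarith)
    have b4 := (abs_le.1 b3).2
    have h5 : Real.exp η ≤ 1 + 2 * η := by nlinarith
    calc a ≤ b * Real.exp η := h4
      _ ≤ b * (1 + 2 * η) := mul_le_mul_of_nonneg_left h5 hb.le
      _ = (1 + 2 * η) * b := by ring

theorem cmk_meas (T H B : ℝ) (hT : 0 < T) (hH : 3 ≤ H) :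
    T * H ^ (-(B + 1)) + T * H ^ (-(B + 1)) ≤ T * H ^ (-B) := by
  have hH0 : 0 < H := by linarith
  have e1 : H ^ (-(B + 1)) = H ^ (-B) * H⁻¹ := by
    rw [neg_add, Real.rpow_add hH0, Real.rpow_neg_one]
  have e2 : 0 < H ^ (-B) := Real.rpow_pos_of_pos hH0 _
  have e3 : H⁻¹ ≤ 1 / 2 := by
    rw [inv_eq_one_div]
    exact one_div_le_one_div_of_le (by norm_num) (by linarith)
  have e4 : T * H ^ (-B) * H⁻¹ ≤ T * H ^ (-B) * (1 / 2) :=
    mul_le_mul_of_nonneg_left e3 (by positivity)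
  rw [e1]
  linarith

theorem st_CMK (h1 : Pool.Agent.Helper57.SI.ST_MT) (h2 : Pool.Agent.Helper57.SI.ST_DU)
    (h3 : Pool.Agent.Helper57.SI.ST_DL) (h4 : Pool.Agent.Helper57.SI.ST_DW) (h5 : ST_APK)
    (h6 : ST_UPK) (h7 : ST_LOWD) (h8 : ST_TLD) (hZA : ST_ZA)
    (h9 : Pool.Agent.Helper57.QZ.ST_DT1) : ST_CMK := by
  intro δ hδ B hB
  obtain ⟨CU, hU⟩ := h2
  obtain ⟨CL, hCL, hL⟩ := h3
  obtain ⟨CW, hCW, hW⟩ := h4
  have hδ0 := hδ.1
  have hδ1 := hδ.2
  obtain ⟨η, hδη⟩ : ∃ η : ℝ, δ = 200 * η := ⟨δ / 200, by ring⟩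
  have hη0 : 0 < η := by linarith
  have hη1 : η < 1 / 200 := by linarith
  have hηI : η ∈ Ioo (0:ℝ) 1 := ⟨hη0, by linarith⟩
  obtain ⟨Q, hQ, hAP0⟩ := h5 η ⟨hη0, by linarith⟩
  obtain ⟨ca, hca, Ta, hTa, hAP⟩ := hAP0 (B + 1) (by linarith)
  obtain ⟨cu, hcu, Hb, Tb, hHb, hTb, hUPT⟩ := h6 η hηI Q hQ (B + 1) (by linarith)
  obtain ⟨Hd, Td, hHd, hTd, hZ⟩ := hZA Q hQ
  obtain ⟨Hc, hHc, hlow⟩ := h7 η hηI
  obtain ⟨c, hc⟩ : ∃ c : ℝ, c = min ca cu := ⟨_, rfl⟩
  have hcca : c ≤ ca := by rw [hc]; exact min_le_left _ _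
  have hccu : c ≤ cu := by rw [hc]; exact min_le_right _ _
  have hc0 : 0 < c := by
    rw [hc]; exact lt_min hca.1 hcu.1
  have hc1 : c < 1 := lt_of_le_of_lt hcca hca.2
  obtain ⟨C, hC⟩ : ∃ C : ℝ, C = 1 + |CU| + CW + (CL / η) ^ 2 := ⟨_, rfl⟩
  have hCC : 0 ≤ (CL / η) ^ 2 := sq_nonneg _
  have hCU : CU ≤ |CU| := le_abs_self _
  have hCU0 : 0 ≤ |CU| := abs_nonneg _
  obtain ⟨Ha, hHa⟩ := h1 η hηI C
  refine ⟨c, ⟨hc0, hc1⟩, max (max Ha Hb) (max Hc Hd), max Ta (max Tb Td), ?_, ?_,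
    fun T hT H hH hHT => ?_⟩
  · exact hHc.trans ((le_max_left _ _).trans (le_max_right _ _))
  · exact hTa.trans (le_max_left _ _)
  have hH1 : Ha ≤ H := ((le_max_left _ _).trans (le_max_left _ _)).trans hH
  have hH2 : Hb ≤ H := ((le_max_right _ _).trans (le_max_left _ _)).trans hH
  have hH3 : Hc ≤ H := ((le_max_left _ _).trans (le_max_right _ _)).trans hH
  have hH4 : Hd ≤ H := ((le_max_right _ _).trans (le_max_right _ _)).trans hH
  have hT1 : Ta ≤ T := (le_max_left _ _).trans hT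
  have hT2 : Tb ≤ T := ((le_max_left _ _).trans (le_max_right _ _)).trans hT
  have hT3 : Td ≤ T := ((le_max_right _ _).trans (le_max_right _ _)).trans hT
  have hTone : (1:ℝ) ≤ T := by linarith
  have hTpos : 0 < T := by linarith
  have hpow : ∀ d : ℝ, c ≤ d → H ≤ T ^ d := fun d hd =>
    hHT.trans (Real.rpow_le_rpow_of_exponent_le hTone hd)
  have hHle : H ≤ T := by
    have := hpow 1 hc1.le
    rwa [Real.rpow_one] at this
  obtain ⟨m1, m2, m3, m4, m5, m6, m7, m8, m9⟩ := hHa H hH1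
  obtain ⟨L, hLdef⟩ : ∃ L : ℝ, Real.log (Real.log H) = L := ⟨_, rfl⟩
  rw [hLdef] at m2 m6 m7 m8
  rw [hLdef]
  have hC1 : 1 ≤ C := by linarith
  have hLpos : 1 ≤ L := by linarith
  have hz1 : 1 ≤ zz H := by
    have : (1:ℝ) ≤ (zz H : ℝ) := by linarith
    exact_mod_cast this
  refine ⟨hLpos, ?_⟩
  obtain ⟨y, hy⟩ : ∃ y : ℕ, zA Q T = y := ⟨_, rfl⟩
  obtain ⟨E1, e1, e1', e1''⟩ := hAP T hT1 H m1 (hpow ca hcca)
  obtain ⟨E2, e2, e2', e2''⟩ := hUPT T hT2 H hH2 (hpow cu hccu)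
  have hy2 := hZ T hT3 H hH4 hHle
  rw [hy] at e1'' e2'' hy2
  refine ⟨Real.exp (P1 (zz H) + Ky y 1), Real.exp_pos _, ?_⟩
  obtain ⟨A, hA⟩ : ∃ A : ℝ, Real.exp (P1 (zz H) + Ky y 1) = A := ⟨_, rfl⟩
  have hApos : 0 < A := by rw [← hA]; exact Real.exp_pos _
  rw [hA]
  refine ⟨E1 ∪ E2, union_subset e1 e2, ?_, fun u hu huE => ?_⟩
  · have a2 := measureReal_union_le (μ := (volume : Measure ℝ)) E1 E2
    have a3 := cmk_meas T H B hTpos m1
    linarith only [a2, a3, e1', e2']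
  simp only [mem_union, not_or] at huE
  obtain ⟨n1, n2⟩ := huE
  obtain ⟨q0, q1⟩ := e1'' u hu n1
  have q2 := e2'' u hu n2
  obtain ⟨t3, ht3, f1, f2⟩ := hlow H hH3 u 0
  have hηL : 0 ≤ η * L := by positivity
  have hd1 : P1 (ZZ η H) - P1 (zz H) ≤ 2 * η := by linarith only [m9]
  have hd2 : P2 (ZZ η H) - P2 (zz H) ≤ 3 * (η * L) := by
    have c5 : (1 + 2 * η) * L = L + 2 * (η * L) := by ring
    have c6 : (1 - η) * L = L - η * L := by ring
    rw [c5] at m7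
    rw [c6] at m8
    linarith only [m7, m8, hC1]
  have htl : ∀ t ∈ Icc u (u + H), ‖tl 0 y (zz H) (lin y t)‖ ≤ 3 * η ∧
      ‖tl 1 y (zz H) (lin y t)‖ ≤ 3 * (η * L) + η := by
    intro t ht
    obtain ⟨x1, x2⟩ := h8 y (zz H) (ZZ η H) (lin y t) m4
    obtain ⟨x3, x4⟩ := q2 t ht
    exact ⟨by linarith only [x1, x3, hd1], by linarith only [x2, x4, hd2]⟩
  have key : ∀ t ∈ Icc u (u + H), riemannZeta (pt 1 t) ≠ 0 ∧
      (1 - η) * ‖Zy y 1 (lin y t)‖ ≤ ‖riemannZeta (pt 1 t)‖ ∧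
      ‖riemannZeta (pt 1 t)‖ ≤ (1 + 2 * η) * ‖Zy y 1 (lin y t)‖ ∧
      ‖deriv riemannZeta (pt 1 t) / riemannZeta (pt 1 t) - Wy y 1 (lin y t)‖ ≤ 2 * η := by
    intro t ht
    obtain ⟨k1, k2, k3⟩ := q1 t ht
    have k4 := (h9 y 1 (lin y t) (by norm_num)).1
    obtain ⟨k5, k6⟩ := cmk_log _ _ η (norm_pos_iff.2 k1) (norm_pos_iff.2 k4) hη0.le
      (by linarith only [hη1]) k2
    exact ⟨k1, k5, k6, by linarith only [k3, hη0]⟩
  -- the lower bound for the logarithmic derivative in a direction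
  have low : ∀ (t ϑ α : ℝ), α = ϑ + Real.pi → t ∈ Icc u (u + H) →
      D2 (zz H) α t ≤ η * Real.log (zz H) →
      (1 - δ) * L ≤ (Complex.exp (-((ϑ : ℂ) * Complex.I)) *
        (deriv riemannZeta (pt 1 t) / riemannZeta (pt 1 t))).re := by
    intro t ϑ α hα ht hd
    rw [hα] at hd
    have w1 := hW y (zz H) t ϑ (3 * (η * L) + η) (η * Real.log (zz H)) hy2 hd (htl t ht).2
    obtain ⟨-, -, -, w2⟩ := key t ht
    have w3 := cmk_re ϑ (deriv riemannZeta (pt 1 t) / riemannZeta (pt 1 t) - Wy y 1 (lin y t))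
    have w4 := (abs_le.1 (w3.trans w2)).1
    rw [mul_sub, Complex.sub_re] at w4
    have w5 : η * Real.log (zz H) ≤ η * L := mul_le_mul_of_nonneg_left m6 hη0.le
    have w6 : δ * L = 200 * (η * L) := by rw [hδη]; ring
    have w8 : (1 - δ) * L = L - δ * L := by ring
    have w9 : (1 - η) * L = L - η * L := by ring
    rw [w9] at m8
    rw [w8]
    linarith only [w1, w4, w5, w6, hηL, m8, hC, hCU0, hCC, hη1, hη0]
  refine ⟨q0, fun t ht => ?_, ⟨t3, ht3, ?_, ?_⟩, fun θ => ?_⟩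
  · obtain ⟨k1, k2, k3, k4⟩ := key t ht
    obtain ⟨u1, u2⟩ := hU y (ZZ η H) (lin y t) η (q2 t ht).1 (q2 t ht).2
    refine ⟨k1, ?_, ?_⟩
    · have b1 : Real.exp (P1 (ZZ η H) + Ky y 1 + η) ≤ A * Real.exp (3 * η) := by
        rw [← hA, ← Real.exp_add]
        exact Real.exp_le_exp.2 (by linarith only [m9])
      have b2 : Real.exp (3 * η) ≤ 1 + 4 * η := by
        have b3 := Real.abs_exp_sub_one_sub_id_le (x := 3 * η)
          (by rw [abs_of_nonneg (by positivity)]; linarith only [hη1])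
        have b4 := (abs_le.1 b3).2
        have b7 : (3 * η) ^ 2 ≤ η := by
          have : (3 * η) ^ 2 = 9 * η * η := by ring
          rw [this]
          calc 9 * η * η ≤ 1 * η := mul_le_mul_of_nonneg_right (by linarith only [hη1]) hη0.le
            _ = η := one_mul η
        linarith only [b4, b7]
      have b5 : (1 + 2 * η) * ‖Zy y 1 (lin y t)‖ ≤ (1 + 2 * η) * (A * (1 + 4 * η)) :=
        mul_le_mul_of_nonneg_left
          ((u1.trans b1).trans (mul_le_mul_of_nonneg_left b2 hApos.le)) (by linarith only [hη0])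
      have b6 : (1 + 2 * η) * (A * (1 + 4 * η)) ≤ (1 + δ) * A := by
        have : (1 + 2 * η) * (1 + 4 * η) ≤ 1 + δ := by
          rw [hδη]
          have b8 : η * η ≤ 1 * η := mul_le_mul_of_nonneg_right (by linarith only [hη1]) hη0.le
          have b9 : (1 + 2 * η) * (1 + 4 * η) = 1 + 6 * η + 8 * (η * η) := by ring
          rw [b9]
          linarith only [b8, hη0]
        calc (1 + 2 * η) * (A * (1 + 4 * η)) = ((1 + 2 * η) * (1 + 4 * η)) * A := by ring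
          _ ≤ (1 + δ) * A := mul_le_mul_of_nonneg_right this hApos.le
      exact k3.trans (b5.trans b6)
    · have c1 : ‖deriv riemannZeta (pt 1 t) / riemannZeta (pt 1 t)‖ ≤
          ‖deriv riemannZeta (pt 1 t) / riemannZeta (pt 1 t) - Wy y 1 (lin y t)‖ +
            ‖Wy y 1 (lin y t)‖ := by
        have := norm_add_le (deriv riemannZeta (pt 1 t) / riemannZeta (pt 1 t) -
          Wy y 1 (lin y t)) (Wy y 1 (lin y t))
        rwa [sub_add_cancel] at this
      have c3 : δ * L = 200 * (η * L) := by rw [hδη]; ring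
      have c4 : (1 + δ) * L = L + δ * L := by ring
      have c5 : (1 + 2 * η) * L = L + 2 * (η * L) := by ring
      rw [c5] at m7
      rw [c4]
      linarith only [c1, hηL, c3, k4, u2, m7, hC, hCU, hCU0, hCC, hCW, hη1, hη0]
  · obtain ⟨k1, k2, k3, k4⟩ := key t3 ht3
    have l1 := hL y (zz H) t3 (3 * η) hz1 hy2 (by linarith only [f1, hη0]) (htl t3 ht3).1
    have hzpos : (0:ℝ) < (zz H : ℝ) := by exact_mod_cast hz1
    have l2 : CL / Real.sqrt (zz H) ≤ η := by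
      have s1 : CL / η ≤ Real.sqrt (zz H) := by
        apply Real.le_sqrt_of_sq_le
        linarith only [m3, hC, hCU0, hCW]
      have s2 : 0 < Real.sqrt (zz H : ℝ) := Real.sqrt_pos.2 hzpos
      rw [div_le_iff₀ s2]
      rw [div_le_iff₀ hη0] at s1
      linarith only [s1]
    have l3 : A * Real.exp (-(55 * η)) ≤ ‖Zy y 1 (lin y t3)‖ := by
      refine le_trans ?_ l1
      rw [← hA, ← Real.exp_add]
      exact Real.exp_le_exp.2 (by linarith only [l2])
    have l4 : 1 - 55 * η ≤ Real.exp (-(55 * η)) := by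
      have := Real.add_one_le_exp (-(55 * η))
      linarith only [this]
    have l5 : A * (1 - 55 * η) ≤ ‖Zy y 1 (lin y t3)‖ :=
      (mul_le_mul_of_nonneg_left l4 hApos.le).trans l3
    have l6 : (1 - η) * (A * (1 - 55 * η)) ≤ (1 - η) * ‖Zy y 1 (lin y t3)‖ :=
      mul_le_mul_of_nonneg_left l5 (by linarith only [hη1])
    have l7 : (1 - δ) * A ≤ (1 - η) * (A * (1 - 55 * η)) := by
      have : 1 - δ ≤ (1 - η) * (1 - 55 * η) := by
        rw [hδη]
        have b8 : 0 ≤ η * η := mul_nonneg hη0.le hη0.le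
        have b9 : (1 - η) * (1 - 55 * η) = 1 - 56 * η + 55 * (η * η) := by ring
        rw [b9]
        linarith only [b8, hη0]
      calc (1 - δ) * A ≤ ((1 - η) * (1 - 55 * η)) * A :=
            mul_le_mul_of_nonneg_right this hApos.le
        _ = (1 - η) * (A * (1 - 55 * η)) := by ring
    exact l7.trans (l6.trans k2)
  · have r1 := low t3 (-Real.pi) 0 (by ring) ht3 f2
    exact r1.trans ((le_abs_self _).trans (cmk_re _ _))
  · obtain ⟨t4, ht4, g1, g2⟩ := hlow H hH3 u (θ + Real.pi)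
    exact ⟨t4, ht4, low t4 θ (θ + Real.pi) rfl ht4 g2⟩

end Pool.Agent.Helper12.SJ
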