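import Pool.Agent.Helper57.SJ.Stmts

/-!
# Row TWT: the weighted second moment along the line
-/

set_option autoImplicit false

namespace Pool.Agent.Helper12.SJ

open MeasureTheory Set Filter Topology
open Pool.Agent.Helper57.SI Pool.Agent.Helper57.SJ
open Pool.Agent.Helper57.QZ (Pr lin)

/-- an oscillating integral -/
theorem twt_int (l b u H : ℝ) (hl : l ≠ 0) :
    ‖∫ t in u..(u + H), Complex.exp (((t * l + b : ℝ) : ℂ) * Complex.I)‖ ≤ 2 / |l| := by
  have hc : (l : ℂ) * Complex.I ≠ 0 := mul_ne_zero (by exact_mod_cast hl) Complex.I_ne_zero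
  have e : ∀ t : ℝ, Complex.exp (((t * l + b : ℝ) : ℂ) * Complex.I) =
      Complex.exp ((b : ℂ) * Complex.I) * Complex.exp ((l : ℂ) * Complex.I * (t : ℂ)) := by
    intro t
    rw [← Complex.exp_add]
    congr 1
    push_cast
    ring
  simp_rw [e]
  rw [intervalIntegral.integral_const_mul, integral_exp_mul_complex hc, norm_mul,
    Complex.norm_exp_ofReal_mul_I, one_mul, norm_div, norm_mul, Complex.norm_I, mul_one,
    Complex.norm_real, Real.norm_eq_abs]
  refine div_le_div_of_nonneg_right ?_ (abs_nonneg _)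
  have n : ∀ x : ℝ, ‖Complex.exp ((l : ℂ) * Complex.I * (x : ℂ))‖ = 1 := by
    intro x
    have : (l : ℂ) * Complex.I * (x : ℂ) = ((l * x : ℝ) : ℂ) * Complex.I := by push_cast; ring
    rw [this, Complex.norm_exp_ofReal_mul_I]
  calc _ ≤ ‖Complex.exp ((l : ℂ) * Complex.I * ((u + H : ℝ) : ℂ))‖ +
        ‖Complex.exp ((l : ℂ) * Complex.I * (u : ℂ))‖ := norm_sub_le _ _
    _ = 2 := by rw [n, n]; norm_num

/-- the integral of an exponential sum -/
theorem twt_gen {ι : Type} (X : Finset ι) (A L B : ι → ℝ) (P : ι → Prop) [DecidablePred P]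
    (u H M : ℝ) (hM : 0 ≤ M) (h1 : ∀ x ∈ X, P x → L x = 0 ∧ B x = 0)
    (h2 : ∀ x ∈ X, ¬ P x → A x ≠ 0 → L x ≠ 0 ∧ 2 / |L x| ≤ M) :
    ‖(∫ t in u..(u + H), ∑ x ∈ X, (A x : ℂ) *
      Complex.exp (((t * L x + B x : ℝ) : ℂ) * Complex.I)) -
      ((H * ∑ x ∈ X, (if P x then A x else 0) : ℝ) : ℂ)‖ ≤ M * ∑ x ∈ X, |A x| := by
  have hint : ∀ x ∈ X, IntervalIntegrable (fun t : ℝ => (A x : ℂ) *
      Complex.exp (((t * L x + B x : ℝ) : ℂ) * Complex.I)) volume u (u + H) := by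
    intro x _
    refine Continuous.intervalIntegrable ?_ _ _
    fun_prop
  rw [intervalIntegral.integral_finsetSum hint, Finset.mul_sum, Complex.ofReal_sum,
    ← Finset.sum_sub_distrib, Finset.mul_sum]
  refine (norm_sum_le _ _).trans (Finset.sum_le_sum fun x hx => ?_)
  by_cases hP : P x
  · obtain ⟨e1, e2⟩ := h1 x hx hP
    rw [if_pos hP]
    have e3 : (∫ t in u..(u + H), (A x : ℂ) *
        Complex.exp (((t * L x + B x : ℝ) : ℂ) * Complex.I)) = ((H * A x : ℝ) : ℂ) := by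
      simp only [e1, e2, mul_zero, add_zero, Complex.ofReal_zero, zero_mul, Complex.exp_zero,
        mul_one, intervalIntegral.integral_const, add_sub_cancel_left]
      rw [Complex.real_smul]
      push_cast
      ring
    rw [e3, sub_self, norm_zero]
    exact mul_nonneg hM (abs_nonneg _)
  · rw [if_neg hP, mul_zero, Complex.ofReal_zero, sub_zero]
    by_cases hA : A x = 0
    · simp [hA]
    · obtain ⟨e1, e2⟩ := h2 x hx hP hA
      rw [intervalIntegral.integral_const_mul, norm_mul, Complex.norm_real, Real.norm_eq_abs,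
        mul_comm]
      exact mul_le_mul_of_nonneg_right ((twt_int _ _ u H e1).trans e2) (abs_nonneg _)

theorem twt_card (z : ℕ) : Fintype.card (Pr z) ≤ z := by
  rw [Fintype.card_coe]
  have h : Nat.primesBelow (z + 1) ⊆ Finset.Icc 1 z := by
    intro p hp
    rw [Nat.mem_primesBelow] at hp
    rw [Finset.mem_Icc]
    exact ⟨hp.2.one_lt.le, Nat.lt_succ_iff.mp hp.1⟩
  have := Finset.card_le_card h
  simpa using this

/-- the expansion of the Fejér kernel with the frequencies `|k| ≤ K` -/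
theorem twt_fej (hF : ST_FJ1) (K : ℕ) (hK : 1 ≤ K) (x : ℝ) :
    ((fej K x : ℝ) : ℂ) = ∑ k ∈ Finset.Icc (-(K : ℤ)) (K : ℤ),
      (fc K k : ℂ) * Complex.exp ((((k : ℝ) * x : ℝ) : ℂ) * Complex.I) := by
  rw [(hF K hK).1 x]
  symm
  apply Finset.sum_subset
  · apply Finset.Icc_subset_Icc <;> push_cast <;> omega
  · intro k hk hk'
    rw [Finset.mem_Icc] at hk hk'
    have h1 : (K : ℤ) ≤ |k| := by
      by_contra hcon
      push Not at hcon
      exact hk' ⟨by linarith [neg_abs_le k], by linarith [le_abs_self k]⟩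
    have h2 : fc K k = 0 := by
      unfold fc
      apply max_eq_left
      have hK0 : (0 : ℝ) < K := by exact_mod_cast hK
      have h3 : (K : ℝ) ≤ |(k : ℝ)| := by exact_mod_cast h1
      have h4 : 1 ≤ |(k : ℝ)| / K := by rwa [le_div_iff₀ hK0, one_mul]
      linarith
    rw [h2, Complex.ofReal_zero, zero_mul]

/-- the coefficients -/
noncomputable def cf (j y z : ℕ) (q : Pr y) : ℝ :=
  if z < (q : ℕ) then Real.log ((q : ℕ) : ℝ) ^ j / ((q : ℕ) : ℝ) else 0

theorem cf_abs {j y z : ℕ} (hj : j ≤ 1) (q : Pr y) : |cf j y z q| ≤ 1 := by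
  have h1 : (1 : ℝ) ≤ ((q : ℕ) : ℝ) := by
    have := (Nat.mem_primesBelow.1 q.2).2.one_lt.le
    exact_mod_cast this
  unfold cf
  split_ifs
  · have h2 : 0 ≤ Real.log ((q : ℕ) : ℝ) := Real.log_nonneg h1
    have h3 : Real.log ((q : ℕ) : ℝ) ≤ ((q : ℕ) : ℝ) :=
      (Real.log_le_sub_one_of_pos (by linarith)).trans (by linarith)
    rw [abs_of_nonneg (div_nonneg (pow_nonneg h2 _) (by linarith)), div_le_one (by linarith)]
    interval_cases j
    · simpa using h1
    · simpa using h3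
  · simp

theorem tl_eq (j y z : ℕ) (t : ℝ) : tl j y z (lin y t) =
    ∑ q : Pr y, (cf j y z q : ℂ) *
      Complex.exp (((-(t * Real.log ((q : ℕ) : ℝ)) : ℝ) : ℂ) * Complex.I) := by
  unfold tl cf lin
  refine Finset.sum_congr rfl fun q _ => ?_
  by_cases h : z < (q : ℕ)
  · rw [if_pos h, if_pos h]
    congr 2
    push_cast
    ring
  · rw [if_neg h, if_neg h, Complex.ofReal_zero, zero_mul]

/-- the square of the tail -/
theorem tl_sq (j y z : ℕ) (t : ℝ) : ((‖tl j y z (lin y t)‖ ^ 2 : ℝ) : ℂ) =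
    ∑ q : Pr y, ∑ q' : Pr y, ((cf j y z q * cf j y z q' : ℝ) : ℂ) *
      Complex.exp (((t * (Real.log ((q' : ℕ) : ℝ) - Real.log ((q : ℕ) : ℝ)) : ℝ) : ℂ) *
        Complex.I) := by
  have h1 : ((‖tl j y z (lin y t)‖ ^ 2 : ℝ) : ℂ) =
      tl j y z (lin y t) * (starRingEnd ℂ) (tl j y z (lin y t)) := by
    rw [Complex.mul_conj, Complex.normSq_eq_norm_sq]
  rw [h1, tl_eq, map_sum, Finset.sum_mul_sum]
  refine Finset.sum_congr rfl fun q _ => Finset.sum_congr rfl fun q' _ => ?_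
  rw [map_mul, Complex.conj_ofReal, ← Complex.exp_conj, map_mul, Complex.conj_ofReal,
    Complex.conj_I]
  have h2 : ((cf j y z q : ℂ) *
      Complex.exp (((-(t * Real.log ((q : ℕ) : ℝ)) : ℝ) : ℂ) * Complex.I)) *
      ((cf j y z q' : ℂ) *
        Complex.exp (((-(t * Real.log ((q' : ℕ) : ℝ)) : ℝ) : ℂ) * -Complex.I)) =
      ((cf j y z q * cf j y z q' : ℝ) : ℂ) *
        (Complex.exp (((-(t * Real.log ((q : ℕ) : ℝ)) : ℝ) : ℂ) * Complex.I) *
          Complex.exp (((-(t * Real.log ((q' : ℕ) : ℝ)) : ℝ) : ℂ) * -Complex.I)) := by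
    push_cast
    ring
  rw [h2, ← Complex.exp_add]
  congr 2
  push_cast
  ring

theorem st_TWT (hFR : ST_FR2) (hF : ST_FJ1) : ST_TWT := by
  classical
  intro y z K j α T hK hj hy hT
  obtain ⟨-, -, f3, -, f5⟩ := hF K hK
  obtain ⟨J, hJ⟩ : ∃ J : Finset ℤ, J = Finset.Icc (-(K : ℤ)) (K : ℤ) := ⟨_, rfl⟩
  have h0J : (0 : ℤ) ∈ J := by rw [hJ]; simp
  obtain ⟨F, hFd⟩ : ∃ F : Finset (Pr z → ℤ), F = Fintype.piFinset fun _ : Pr z => J := ⟨_, rfl⟩
  have h0F : (0 : Pr z → ℤ) ∈ F := by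
    rw [hFd, Fintype.mem_piFinset]
    exact fun _ => h0J
  obtain ⟨lam, hlam⟩ : ∃ lam : (Pr z → ℤ) → ℝ,
    ∀ k, lam k = ∑ p : Pr z, (k p : ℝ) * Real.log ((p : ℕ) : ℝ) := ⟨_, fun _ => rfl⟩
  obtain ⟨bet, hbet⟩ : ∃ bet : (Pr z → ℤ) → ℝ,
    ∀ k, bet k = ∑ p : Pr z, (k p : ℝ) * α := ⟨_, fun _ => rfl⟩
  obtain ⟨cc, hcc⟩ : ∃ cc : (Pr z → ℤ) → ℝ, ∀ k, cc k = ∏ p : Pr z, fc K (k p) :=
    ⟨_, fun _ => rfl⟩
  -- the weight
  have hw : ∀ t : ℝ, ((ww z K α t : ℝ) : ℂ) = ∑ k ∈ F, (cc k : ℂ) *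
        Complex.exp (((t * lam k + bet k : ℝ) : ℂ) * Complex.I) := by
    intro t
    unfold ww
    rw [Complex.ofReal_prod, Finset.prod_congr rfl (fun p _ => twt_fej hF K hK _), ← hJ,
      Finset.prod_univ_sum, ← hFd]
    refine Finset.sum_congr rfl fun k _ => ?_
    rw [Finset.prod_mul_distrib, ← Complex.exp_sum, hcc, Complex.ofReal_prod]
    congr 2
    rw [← Finset.sum_mul, ← Complex.ofReal_sum]
    congr 2
    rw [hlam, hbet, Finset.mul_sum, ← Finset.sum_add_distrib]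
    exact Finset.sum_congr rfl fun p _ => by ring
  obtain ⟨X, hX⟩ : ∃ X : Finset ((Pr z → ℤ) × (Pr y × Pr y)),
    X = F ×ˢ (Finset.univ ×ˢ Finset.univ) := ⟨_, rfl⟩
  obtain ⟨A, hA⟩ : ∃ A : (Pr z → ℤ) × (Pr y × Pr y) → ℝ, ∀ x,
    A x = cc x.1 * (cf j y z x.2.1 * cf j y z x.2.2) := ⟨_, fun _ => rfl⟩
  obtain ⟨L, hL⟩ : ∃ L : (Pr z → ℤ) × (Pr y × Pr y) → ℝ, ∀ x,
    L x = lam x.1 + (Real.log ((x.2.2 : ℕ) : ℝ) - Real.log ((x.2.1 : ℕ) : ℝ)) :=
    ⟨_, fun _ => rfl⟩
  have hprod : ∀ t : ℝ, ((ww z K α t * ‖tl j y z (lin y t)‖ ^ 2 : ℝ) : ℂ) =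
      ∑ x ∈ X, (A x : ℂ) *
        Complex.exp (((t * L x + bet x.1 : ℝ) : ℂ) * Complex.I) := by
    intro t
    rw [Complex.ofReal_mul, hw, tl_sq, hX, Finset.sum_product, Finset.sum_mul]
    refine Finset.sum_congr rfl fun k _ => ?_
    rw [Finset.sum_product, Finset.mul_sum]
    refine Finset.sum_congr rfl fun q _ => ?_
    rw [Finset.mul_sum]
    refine Finset.sum_congr rfl fun q' _ => ?_
    rw [hA, hL, Complex.ofReal_mul (cc _)]
    have e1 : (((t * (lam k + (Real.log ((q' : ℕ) : ℝ) - Real.log ((q : ℕ) : ℝ))) + bet k : ℝ) :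
        ℂ) * Complex.I) = ((t * lam k + bet k : ℝ) : ℂ) * Complex.I +
        ((t * (Real.log ((q' : ℕ) : ℝ) - Real.log ((q : ℕ) : ℝ)) : ℝ) : ℂ) * Complex.I := by
      push_cast
      ring
    rw [e1, Complex.exp_add]
    ring
  have h4 : (0 : ℝ) < 4 ^ (K * z) := by positivity
  have hy0 : (0 : ℝ) < y := by exact_mod_cast hy
  have hM : (0 : ℝ) ≤ 2 * 4 ^ (K * z) * y := by positivity
  have hgen := twt_gen X A L (fun x => bet x.1) (fun x => x.1 = 0 ∧ x.2.1 = x.2.2) T T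
    (2 * 4 ^ (K * z) * y) hM (by
      rintro ⟨k, q, q'⟩ _ ⟨e1, e2⟩
      simp only at e1 e2
      rw [hL, hlam, hbet, e1, e2]
      simp) (by
      rintro ⟨k, q, q'⟩ hx hP hAx
      rw [hX, Finset.mem_product] at hx
      have hkF : k ∈ F := hx.1
      have hkb : ∀ p, |k p| ≤ (K : ℤ) := by
        intro p
        rw [hFd, Fintype.mem_piFinset] at hkF
        have := hkF p
        rw [hJ, Finset.mem_Icc] at this
        exact abs_le.2 this
      rw [hA] at hAx
      have hc1 : z < (q : ℕ) := by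
        by_contra hcon
        apply hAx
        simp only [cf, if_neg hcon, zero_mul, mul_zero]
      have hc2 : z < (q' : ℕ) := by
        by_contra hcon
        apply hAx
        simp only [cf, if_neg hcon, mul_zero]
      have hq := Nat.mem_primesBelow.1 q.2
      have hq' := Nat.mem_primesBelow.1 q'.2
      have hne : k ≠ 0 ∨ (q' : ℕ) ≠ (q : ℕ) := by
        by_contra hcon
        push Not at hcon
        exact hP ⟨hcon.1, Subtype.ext hcon.2.symm⟩
      have h1 := hFR z K y q' q k hkb hq'.2 hq.2 hc2 hc1 (Nat.lt_succ_iff.1 hq'.1)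
        (Nat.lt_succ_iff.1 hq.1) hne
      have e1 : L (k, q, q') = (∑ p : Pr z, (k p : ℝ) * Real.log ((p : ℕ) : ℝ)) +
          Real.log ((q' : ℕ) : ℝ) - Real.log ((q : ℕ) : ℝ) := by
        rw [hL, hlam]
        ring
      rw [← e1] at h1
      have h2 : 0 < |L (k, q, q')| := lt_of_lt_of_le (by positivity) h1
      refine ⟨abs_pos.1 h2, ?_⟩
      rw [div_le_iff₀ h2]
      rw [div_le_iff₀ (by positivity)] at h1
      linarith)
  -- the diagonal
  have hcc0 : cc 0 = 1 := by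
    rw [hcc]
    simp only [Pi.zero_apply, f3]
    exact Finset.prod_const_one
  have hdiag : ∑ x ∈ X, (if x.1 = 0 ∧ x.2.1 = x.2.2 then A x else 0) =
      ∑ p : Pr y, if z < (p : ℕ) then
        (Real.log ((p : ℕ) : ℝ) ^ j / ((p : ℕ) : ℝ)) ^ 2 else 0 := by
    rw [hX, Finset.sum_product, Finset.sum_eq_single (0 : Pr z → ℤ)]
    · rw [Finset.sum_product]
      refine Finset.sum_congr rfl fun q _ => ?_
      rw [Finset.sum_eq_single q]
      · rw [if_pos ⟨rfl, rfl⟩, hA]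
        simp only [hcc0, one_mul, cf]
        split_ifs
        · ring
        · ring
      · intro q' _ hne
        rw [if_neg]
        rintro ⟨-, h⟩
        exact hne h.symm
      · intro h
        exact absurd (Finset.mem_univ _) h
    · intro k _ hk
      refine Finset.sum_eq_zero fun x _ => ?_
      rw [if_neg]
      rintro ⟨h, -⟩
      exact hk h
    · intro h
      exact absurd h0F h
  -- the sum of the coefficients
  have hsumF : ∑ k ∈ F, |cc k| ≤ (2 * (K : ℝ) + 1) ^ z := by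
    have e1 : ∑ k ∈ F, |cc k| = ∏ p : Pr z, ∑ k ∈ J, |fc K k| := by
      rw [Finset.prod_univ_sum, ← hFd]
      refine Finset.sum_congr rfl fun k _ => ?_
      rw [hcc, Finset.abs_prod]
    have e2 : ∑ k ∈ J, |fc K k| ≤ 2 * (K : ℝ) + 1 := by
      have h1 := Finset.sum_le_card_nsmul J (fun k => |fc K k|) 1 (fun k _ => (f5 k).1)
      refine h1.trans (le_of_eq ?_)
      rw [hJ, nsmul_eq_mul, Int.card_Icc]
      have h2 : ((K : ℤ) + 1 - -(K : ℤ)).toNat = 2 * K + 1 := by omega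
      rw [h2]
      push_cast
      ring
    rw [e1, Finset.prod_const, Finset.card_univ]
    have hK0 : (0 : ℝ) ≤ K := Nat.cast_nonneg K
    refine (pow_le_pow_left₀ (Finset.sum_nonneg fun k _ => abs_nonneg _) e2 _).trans ?_
    exact pow_le_pow_right₀ (by linarith) (twt_card z)
  have hsumC : ∑ q : Pr y, |cf j y z q| ≤ y := by
    have h1 := Finset.sum_le_card_nsmul (Finset.univ : Finset (Pr y)) (fun q => |cf j y z q|) 1
      (fun q _ => cf_abs hj q)
    rw [nsmul_eq_mul, mul_one, Finset.card_univ] at h1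
    exact h1.trans (by exact_mod_cast twt_card y)
  have hsumA : ∑ x ∈ X, |A x| ≤ (2 * (K : ℝ) + 1) ^ z * (y * y) := by
    have e1 : ∑ x ∈ X, |A x| = (∑ k ∈ F, |cc k|) *
        ((∑ q : Pr y, |cf j y z q|) * ∑ q : Pr y, |cf j y z q|) := by
      rw [hX, Finset.sum_product, Finset.sum_mul]
      refine Finset.sum_congr rfl fun k _ => ?_
      rw [Finset.sum_product, Finset.sum_mul_sum, Finset.mul_sum]
      refine Finset.sum_congr rfl fun q _ => ?_
      rw [Finset.mul_sum]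
      refine Finset.sum_congr rfl fun q' _ => ?_
      rw [hA, abs_mul, abs_mul]
    rw [e1]
    have h0 : 0 ≤ ∑ q : Pr y, |cf j y z q| := Finset.sum_nonneg fun _ _ => abs_nonneg _
    exact mul_le_mul hsumF (mul_le_mul hsumC hsumC h0 hy0.le) (mul_nonneg h0 h0)
      (by positivity)
  -- conclusion
  have h2T : T + T = 2 * T := by ring
  rw [h2T] at hgen
  have hint : ((∫ t in T..(2 * T), ww z K α t * ‖tl j y z (lin y t)‖ ^ 2 : ℝ) : ℂ) =
      ∫ t in T..(2 * T), ∑ x ∈ X, (A x : ℂ) *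
        Complex.exp (((t * L x + bet x.1 : ℝ) : ℂ) * Complex.I) := by
    rw [← intervalIntegral.integral_ofReal]
    exact intervalIntegral.integral_congr fun t _ => hprod t
  rw [← hint, ← Complex.ofReal_sub, Complex.norm_real, Real.norm_eq_abs] at hgen
  have h5 := (abs_le.1 hgen).2
  have h6 : ∑ x ∈ X, (if x.1 = 0 ∧ x.2.1 = x.2.2 then A x else 0) =
      ∑ p : Pr y, if z < (p : ℕ) then
        (Real.log ((p : ℕ) : ℝ) ^ j / ((p : ℕ) : ℝ)) ^ 2 else 0 := hdiag
  rw [h6] at h5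
  have h7 : 2 * 4 ^ (K * z) * (y : ℝ) * ∑ x ∈ X, |A x| ≤
      2 * 4 ^ (K * z) * y * ((2 * (K : ℝ) + 1) ^ z * (y * y)) :=
    mul_le_mul_of_nonneg_left hsumA hM
  have h8 : 2 * 4 ^ (K * z) * (y : ℝ) * ((2 * (K : ℝ) + 1) ^ z * (y * y)) =
      2 * 4 ^ (K * z) * (2 * K + 1) ^ z * y ^ 3 := by ring
  linarith

end Pool.Agent.Helper12.SJ
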